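import Pool.Agent.R762.Cov

/-!
# Covering subgroups: the index is bounded for solvable `H` of bounded derived length

If `U` is an `A`-covering subgroup of the normal subgroup `H` of index `n` of the finite group `A`
and `H` has a series of length `d` of normal subgroups of `A` whose factors are abelian or of order
at most `c`, then `|H : U| ≤ max(n, c) ^ (2 ^ d - 1)`. In particular `|H : U| ≤ n ^ (2 ^ d - 1)` if
`H` is solvable of derived length at most `d`.
-/

set_option autoImplicit false

namespace Pool.Agent.Results.MP_169bcc_al.SolvableBound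

universe u

/-- `U` is an `A`-covering subgroup of the normal subgroup `H` of `A`: `U ≤ H` and every element of
`H` lies in a conjugate `U ^ a = a⁻¹ U a` with `a` in `A` -/
def Covering {A : Type u} [Group A] (H U : Subgroup A) : Prop :=
  H.Normal ∧ U ≤ H ∧ ∀ h ∈ H, ∃ a : A, ∃ x ∈ U, h = a⁻¹ * x * a

theorem covers {A : Type u} [Group A] {H U : Subgroup A} (h : Covering H U) :
    ∀ x ∈ H, ∃ a : A, a * x * a⁻¹ ∈ U := by
  intro x hx
  obtain ⟨a, y, hy, rfl⟩ := h.2.2 x hx
  refine ⟨a, ?_⟩
  have e : a * (a⁻¹ * y * a) * a⁻¹ = y := by group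
  rw [e]
  exact hy

theorem result :
    (∀ (d c : ℕ) (A : Type u) [Group A] [Finite A] (H U : Subgroup A) (N : ℕ → Subgroup A),
      Covering H U → (∀ i, (N i).Normal) → N 0 = ⊥ → N d = H →
      (∀ i < d, N i ≤ N (i + 1) ∧
        (⁅N (i + 1), N (i + 1)⁆ ≤ N i ∨ (N i).relIndex (N (i + 1)) ≤ c)) →
      U.relIndex H ≤ (max H.index c) ^ (2 ^ d - 1)) ∧
    (∀ (d : ℕ) (A : Type u) [Group A] [Finite A] (H U : Subgroup A),
      Covering H U → derivedSeries H d = ⊥ → U.relIndex H ≤ H.index ^ (2 ^ d - 1)) := by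
  refine ⟨?_, ?_⟩
  · intro d c A _ _ H U N hc hN h0 hd hs
    exact R762.Cov.series_bound d c A H U N hc.2.1 (covers hc) hN h0 hd hs
  · intro d A _ _ H U hc hder
    exact R762.Cov.solvable_bound d A H U hc.1 hc.2.1 (covers hc) hder

end Pool.Agent.Results.MP_169bcc_al.SolvableBound
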