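import Pool.Agent.R762.CovSub

/-!
# Covering subgroups: the index is bounded for subnormal `U` of bounded defect

There is a function `F` such that `|H : U| ≤ F k n` whenever `H` is a normal subgroup of index `n`
of a finite group `A` and `U` is an `A`-covering subgroup of `H` which is subnormal in `H` of defect
at most `k`. No solvability is assumed.
-/

set_option autoImplicit false

namespace Pool.Agent.Results.MP_169bcc_al.SubnormalBound

universe u

/-- `U` is an `A`-covering subgroup of the normal subgroup `H` of `A`: `U ≤ H` and every element of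
`H` lies in a conjugate `U ^ a = a⁻¹ U a` with `a` in `A` -/
def Covering {A : Type u} [Group A] (H U : Subgroup A) : Prop :=
  H.Normal ∧ U ≤ H ∧ ∀ h ∈ H, ∃ a : A, ∃ x ∈ U, h = a⁻¹ * x * a

/-- `U` is subnormal in `H` of defect at most `k`: there is a chain
`U = T 0 ≤ T 1 ≤ ... ≤ T k = H` with each term normal in the next -/
def Subnormal {A : Type u} [Group A] (k : ℕ) (H U : Subgroup A) : Prop :=
  ∃ T : ℕ → Subgroup A, T 0 = U ∧ T k = H ∧
    ∀ i < k, T i ≤ T (i + 1) ∧ ∀ x ∈ T (i + 1), ∀ t ∈ T i, x * t * x⁻¹ ∈ T i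

theorem result :
    ∃ F : ℕ → ℕ → ℕ, ∀ (k : ℕ) (A : Type u) [Group A] [Finite A] (H U : Subgroup A),
      Covering H U → Subnormal k H U → U.relIndex H ≤ F k H.index := by
  refine ⟨R762.CovSub.bd, ?_⟩
  intro k A _ _ H U hc hs
  obtain ⟨T, h0, hk, hT⟩ := hs
  refine R762.CovSub.bound k A H U T hc.1 ?_ h0 hk hT
  intro x hx
  obtain ⟨a, y, hy, rfl⟩ := hc.2.2 x hx
  refine ⟨a, ?_⟩
  have e : a * (a⁻¹ * y * a) * a⁻¹ = y := by group
  rw [e]
  exact hy

end Pool.Agent.Results.MP_169bcc_al.SubnormalBound
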